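import Mathlib

set_option autoImplicit false

/-! 1-unconditional bases: coefficients and projections -/

namespace Pool.Agent.U53.PB

open Filter Topology

variable {X : Type} [NormedAddCommGroup X] [NormedSpace ℝ X]

/-- a 1-unconditional basis `e` with its coefficients `a` -/
structure UB (e : ℕ → X) (a : X → ℕ → ℝ) : Prop where
  has : ∀ x, HasSum (fun n => a x n • e n) x
  uniq : ∀ x b, HasSum (fun n => b n • e n) x → b = a x
  unc : ∀ (s : Finset ℕ) (b ε : ℕ → ℝ), (∀ n, ε n = 1 ∨ ε n = -1) →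
          ‖∑ n ∈ s, (ε n * b n) • e n‖ ≤ ‖∑ n ∈ s, b n • e n‖

variable {e : ℕ → X} {a : X → ℕ → ℝ}

namespace UB

theorem add (h : UB e a) (x y : X) : a (x + y) = fun n => a x n + a y n := by
  symm
  apply h.uniq
  simpa only [add_smul] using (h.has x).add (h.has y)

theorem smul (h : UB e a) (c : ℝ) (x : X) : a (c • x) = fun n => c * a x n := by
  symm
  apply h.uniq
  simpa only [mul_smul] using (h.has x).const_smul c

theorem neg (h : UB e a) (x : X) : a (-x) = fun n => - a x n := by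
  have := h.smul (-1) x
  simpa using this

theorem sub (h : UB e a) (x y : X) : a (x - y) = fun n => a x n - a y n := by
  rw [sub_eq_add_neg, h.add, h.neg]
  funext n
  ring

theorem fin (h : UB e a) (s : Finset ℕ) (b : ℕ → ℝ) :
    a (∑ n ∈ s, b n • e n) = fun n => if n ∈ s then b n else 0 := by
  symm
  apply h.uniq
  have : ∑ n ∈ s, b n • e n = ∑ n ∈ s, (if n ∈ s then b n else 0) • e n := by
    apply Finset.sum_congr rfl
    intro n hn
    rw [if_pos hn]
  rw [this]
  apply hasSum_sum_of_ne_finset_zero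
  intro n hn
  rw [if_neg hn, zero_smul]

theorem zero (h : UB e a) : a 0 = fun _ => 0 := by
  have := h.fin ∅ 0
  simpa using this

theorem e_ne (h : UB e a) (n : ℕ) : e n ≠ 0 := by
  intro he
  have h1 := h.fin {n} (fun _ => 1)
  simp only [Finset.sum_singleton, he, smul_zero] at h1
  rw [h.zero] at h1
  have := congrFun h1 n
  simp at this

theorem norm_sum_mono (h : UB e a) {s t : Finset ℕ} (hst : s ⊆ t) (b : ℕ → ℝ) :
    ‖∑ n ∈ s, b n • e n‖ ≤ ‖∑ n ∈ t, b n • e n‖ := by
  classical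
  have h1 := h.unc t b (fun n => if n ∈ s then 1 else -1) (fun n => by
    by_cases hn : n ∈ s <;> simp [hn])
  have h2 : ∑ n ∈ s, b n • e n = (1 / 2 : ℝ) • (∑ n ∈ t, b n • e n +
      ∑ n ∈ t, ((if n ∈ s then 1 else -1) * b n) • e n) := by
    rw [← Finset.sum_add_distrib, Finset.smul_sum, ← Finset.sum_subset hst]
    · apply Finset.sum_congr rfl
      intro n hn
      rw [if_pos hn, ← add_smul, smul_smul]
      congr 1
      ring
    · intro n _ hn
      rw [if_neg hn, ← add_smul, smul_smul]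
      rw [show (1 / 2 : ℝ) * (b n + -1 * b n) = 0 by ring, zero_smul]
  rw [h2, norm_smul]
  have h3 := norm_add_le (∑ n ∈ t, b n • e n)
    (∑ n ∈ t, ((if n ∈ s then (1 : ℝ) else -1) * b n) • e n)
  rw [Real.norm_of_nonneg (by norm_num)]
  linarith

theorem norm_sum_le (h : UB e a) (s : Finset ℕ) (x : X) :
    ‖∑ n ∈ s, a x n • e n‖ ≤ ‖x‖ := by
  have h1 : Tendsto (fun t : Finset ℕ => ‖∑ n ∈ t, a x n • e n‖) atTop (𝓝 ‖x‖) :=
    (h.has x).norm
  refine ge_of_tendsto h1 ?_
  filter_upwards [eventually_ge_atTop s] with t ht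
  exact h.norm_sum_mono ht _

theorem norm_flip (h : UB e a) {x y : X} (ε : ℕ → ℝ) (hε : ∀ n, ε n = 1 ∨ ε n = -1)
    (hxy : ∀ n, a y n = ε n * a x n) : ‖y‖ ≤ ‖x‖ := by
  have h1 : Tendsto (fun t : Finset ℕ => ‖∑ n ∈ t, a x n • e n‖) atTop (𝓝 ‖x‖) :=
    (h.has x).norm
  have h2 : Tendsto (fun t : Finset ℕ => ‖∑ n ∈ t, a y n • e n‖) atTop (𝓝 ‖y‖) :=
    (h.has y).norm
  refine le_of_tendsto_of_tendsto' h2 h1 fun t => ?_
  simp only [hxy]
  exact h.unc t _ ε hε

/-- partial sums -/
noncomputable def P (e : ℕ → X) (a : X → ℕ → ℝ) (N : ℕ) (x : X) : X :=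
  ∑ n ∈ Finset.range N, a x n • e n

theorem coef_P (h : UB e a) (N : ℕ) (x : X) (n : ℕ) :
    a (P e a N x) n = if n < N then a x n else 0 := by
  rw [P, h.fin]
  simp

theorem norm_P_le (h : UB e a) (N : ℕ) (x : X) : ‖P e a N x‖ ≤ ‖x‖ := h.norm_sum_le _ _

theorem tendsto_P (h : UB e a) (x : X) : Tendsto (fun N => P e a N x) atTop (𝓝 x) :=
  (h.has x).tendsto_sum_nat

theorem P_add (h : UB e a) (N : ℕ) (x y : X) : P e a N (x + y) = P e a N x + P e a N y := by
  simp only [P, h.add, add_smul, Finset.sum_add_distrib]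

theorem P_smul (h : UB e a) (N : ℕ) (c : ℝ) (x : X) : P e a N (c • x) = c • P e a N x := by
  simp only [P, h.smul, mul_smul, Finset.smul_sum]

theorem P_sub (h : UB e a) (N : ℕ) (x y : X) : P e a N (x - y) = P e a N x - P e a N y := by
  simp only [P, h.sub, sub_smul, Finset.sum_sub_distrib]

theorem P_P (h : UB e a) {M N : ℕ} (hMN : M ≤ N) (x : X) : P e a N (P e a M x) = P e a M x := by
  have : P e a N (P e a M x) = ∑ n ∈ Finset.range N, (if n < M then a x n else 0) • e n := by
    simp only [P]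
    apply Finset.sum_congr rfl
    intro n _
    have := h.coef_P M x n
    rw [P] at this
    rw [this]
  rw [this]
  symm
  rw [P]
  rw [← Finset.sum_subset (Finset.range_mono hMN)]
  · apply Finset.sum_congr rfl
    intro n hn
    rw [if_pos (Finset.mem_range.1 hn)]
  · intro n _ hn
    rw [if_neg (fun hh => hn (Finset.mem_range.2 hh)), zero_smul]

theorem P_P' (h : UB e a) {M N : ℕ} (hMN : M ≤ N) (x : X) : P e a M (P e a N x) = P e a M x := by
  simp only [P]
  apply Finset.sum_congr rfl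
  intro n hn
  have := h.coef_P N x n
  rw [P] at this
  rw [this, if_pos (lt_of_lt_of_le (Finset.mem_range.1 hn) hMN)]

theorem coef_of_P_eq (h : UB e a) {N : ℕ} {x : X} (hx : P e a N x = x) {n : ℕ} (hn : N ≤ n) :
    a x n = 0 := by
  rw [← hx, h.coef_P, if_neg (by omega)]

theorem coef_of_P_zero (h : UB e a) {N : ℕ} {x : X} (hx : P e a N x = 0) {n : ℕ} (hn : n < N) :
    a x n = 0 := by
  have := h.coef_P N x n
  rw [hx, h.zero, if_pos hn] at this
  exact this.symm

theorem P_mono (h : UB e a) {M N : ℕ} (hMN : M ≤ N) {x : X} (hx : P e a M x = x) :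
    P e a N x = x := by
  rw [← hx, h.P_P hMN]

theorem P_zero_mono (h : UB e a) {M N : ℕ} (hMN : M ≤ N) {x : X} (hx : P e a N x = 0) :
    P e a M x = 0 := by
  rw [← h.P_P' hMN, hx]
  simp [P, h.zero]

theorem norm_sub_le (h : UB e a) {N : ℕ} {y z : X} (hy : P e a N y = y) (hz : P e a N z = 0) :
    ‖y - z‖ ≤ ‖y + z‖ := by
  apply h.norm_flip (fun n => if n < N then 1 else -1)
  · intro n
    by_cases hn : n < N <;> simp [hn]
  · intro n
    rw [h.sub, h.add]
    by_cases hn : n < N
    · simp only [hn, if_true, h.coef_of_P_zero hz hn]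
      ring
    · simp only [hn, if_false, h.coef_of_P_eq hy (not_lt.1 hn)]
      ring

theorem abs_coef_mul (h : UB e a) (x : X) (n : ℕ) : |a x n| * ‖e n‖ ≤ ‖x‖ := by
  have := h.norm_sum_le {n} x
  rwa [Finset.sum_singleton, norm_smul, Real.norm_eq_abs] at this

/-- the coefficients are continuous -/
noncomputable def coord (h : UB e a) (n : ℕ) : X →L[ℝ] ℝ :=
  LinearMap.mkContinuous
    { toFun := fun x => a x n
      map_add' := fun x y => by rw [h.add]
      map_smul' := fun c x => by rw [h.smul]; rfl } (‖e n‖⁻¹) (fun x => by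
        have h1 := h.abs_coef_mul x n
        have h2 : 0 < ‖e n‖ := norm_pos_iff.2 (h.e_ne n)
        rw [inv_mul_eq_div, le_div_iff₀ h2]
        exact h1)

theorem coord_apply (h : UB e a) (n : ℕ) (x : X) : h.coord n x = a x n := rfl

end UB

end Pool.Agent.U53.PB
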