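import Mathlib
import Pool.Agent.U53.PiBaseA

set_option autoImplicit false

/-! The potential function and the exhaustion argument -/

namespace Pool.Agent.U53.PB

open Filter Topology

variable {X : Type} [NormedAddCommGroup X] [NormedSpace ℝ X]
variable {e : ℕ → X} {a : X → ℕ → ℝ}

/-- `∑ n, |f (e n)| |a x n|` -/
noncomputable def Gf (e : ℕ → X) (a : X → ℕ → ℝ) (f : StrongDual ℝ X) (x : X) : ℝ :=
  ∑' n, |f (e n)| * |a x n|

namespace UB

theorem hasSum_f (h : UB e a) (f : StrongDual ℝ X) (x : X) :
    HasSum (fun n => f (e n) * a x n) (f x) := by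
  have := f.hasSum (h.has x)
  simpa only [map_smul, smul_eq_mul, mul_comm] using this

theorem summable_G (h : UB e a) (f : StrongDual ℝ X) (x : X) :
    Summable (fun n => |f (e n)| * |a x n|) := by
  have := (h.hasSum_f f x).summable.abs
  simpa only [abs_mul] using this

theorem G_nonneg (f : StrongDual ℝ X) (x : X) : 0 ≤ Gf e a f x :=
  tsum_nonneg fun n => by positivity

theorem abs_le_G (h : UB e a) (f : StrongDual ℝ X) (x : X) : |f x| ≤ Gf e a f x := by
  have h1 := (h.hasSum_f f x)
  rw [← h1.tsum_eq, Gf]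
  have h2 : ∀ n, |f (e n)| * |a x n| = ‖f (e n) * a x n‖ := fun n => by
    rw [Real.norm_eq_abs, abs_mul]
  simp only [h2]
  have := norm_tsum_le_tsum_norm (f := fun n => f (e n) * a x n) (by
    simpa only [Real.norm_eq_abs] using h1.summable.abs)
  simpa only [Real.norm_eq_abs] using this

theorem G_le (h : UB e a) (f : StrongDual ℝ X) (x : X) : Gf e a f x ≤ ‖f‖ * ‖x‖ := by
  apply (h.summable_G f x).tsum_le_of_sum_le
  intro s
  have h1 : ∑ n ∈ s, |f (e n)| * |a x n| =
      f (∑ n ∈ s, ((if 0 ≤ f (e n) * a x n then (1 : ℝ) else -1) * a x n) • e n) := by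
    rw [map_sum]
    apply Finset.sum_congr rfl
    intro n _
    rw [map_smul, smul_eq_mul, ← abs_mul]
    split_ifs with hh
    · rw [abs_of_nonneg hh]; ring
    · rw [abs_of_neg (not_le.1 hh)]; ring
  rw [h1]
  refine (le_abs_self _).trans ((f.le_opNorm _).trans ?_)
  gcongr
  refine (h.unc s (a x) _ (fun n => ?_)).trans (h.norm_sum_le s x)
  split_ifs <;> simp

theorem G_smul (h : UB e a) (f : StrongDual ℝ X) (c : ℝ) (x : X) :
    Gf e a f (c • x) = |c| * Gf e a f x := by
  rw [Gf, Gf, ← tsum_mul_left]
  congr 1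
  funext n
  rw [h.smul, abs_mul]
  ring

theorem G_disj (h : UB e a) (f : StrongDual ℝ X) {x y : X}
    (hxy : ∀ n, a x n = 0 ∨ a y n = 0) : Gf e a f (x + y) = Gf e a f x + Gf e a f y := by
  rw [Gf, Gf, Gf, ← (h.summable_G f x).tsum_add (h.summable_G f y)]
  congr 1
  funext n
  rw [h.add]
  rcases hxy n with h0 | h0 <;> simp [h0]

end UB

/-- two far apart elements of a sequence with almost the same values -/
theorem exists_close {ι : Type*} [Fintype ι] (v : ℕ → ι → ℝ) (C : ℝ) (hC : ∀ n i, |v n i| ≤ C)
    (M : ℕ → ℕ) {η : ℝ} (hη : 0 < η) (n₀ : ℕ) :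
    ∃ m n, n₀ ≤ m ∧ n₀ ≤ n ∧ M m ≤ n ∧ ∀ i, |v m i - v n i| < η := by
  have hb : Bornology.IsBounded (Set.range v) := by
    rw [isBounded_iff_forall_norm_le]
    refine ⟨|C|, ?_⟩
    rintro _ ⟨n, rfl⟩
    rw [pi_norm_le_iff_of_nonneg (abs_nonneg _)]
    intro i
    exact (hC n i).trans (le_abs_self _)
  obtain ⟨w, _, φ, hφ, hlim⟩ := tendsto_subseq_of_bounded hb (fun n => Set.mem_range_self n)
  rw [Metric.tendsto_atTop] at hlim
  obtain ⟨k, hk⟩ := hlim (η / 2) (by positivity)
  have hge : ∀ j, j ≤ φ j := fun j => hφ.id_le j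
  refine ⟨φ (max k n₀), φ (max (max k n₀) (M (φ (max k n₀)))), ?_, ?_, ?_, fun i => ?_⟩
  · exact (le_max_right _ _).trans (hge _)
  · exact ((le_max_right _ _).trans (le_max_left _ _)).trans (hge _)
  · exact (le_max_right _ _).trans (hge _)
  · have h1 := hk (max k n₀) (le_max_left _ _)
    have h2 := hk (max (max k n₀) (M (φ (max k n₀)))) ((le_max_left _ _).trans (le_max_left _ _))
    have h3 : dist (v (φ (max k n₀))) (v (φ (max (max k n₀) (M (φ (max k n₀)))))) < η := by
      calc _ ≤ dist (v (φ (max k n₀))) w + dist (v (φ (max (max k n₀) (M (φ (max k n₀)))))) w :=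
            dist_triangle_right _ _ _
        _ < η / 2 + η / 2 := add_lt_add h1 h2
        _ = η := by ring
    have h4 := dist_le_pi_dist (v (φ (max k n₀))) (v (φ (max (max k n₀) (M (φ (max k n₀)))))) i
    rw [Real.dist_eq] at h4
    linarith

/-- In every weakly open set there is a finitely supported vector `y` such that adding any
vector far away, without leaving the ball, changes the functionals only a little. -/
theorem exists_good (h : UB e a) (I : Finset (StrongDual ℝ X)) (x₀ : X) (hx₀ : ‖x₀‖ ≤ 1)
    {r ε : ℝ} (hr : 0 < r) (hε : 0 < ε) :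
    ∃ (y : X) (N : ℕ) (δ : ℝ), 0 < δ ∧ UB.P e a N y = y ∧ ‖y‖ ≤ 1 ∧
      (∀ f ∈ I, |f (y - x₀)| < r) ∧
      ∀ z, UB.P e a N z = 0 → ‖y + z‖ ≤ 1 + δ → ∀ f ∈ I, |f z| ≤ ε := by
  classical
  by_contra hcon
  push Not at hcon
  -- total mass
  set G : X → ℝ := fun x => ∑ f ∈ I, Gf e a f x with hG
  have key : ∀ j : ℕ, ∃ (y : X) (N : ℕ), UB.P e a N y = y ∧ ‖y‖ ≤ 1 ∧
      (∀ f ∈ I, |f (y - x₀)| < r) ∧ (j : ℝ) * (ε / 4) ≤ G y := by
    intro j
    induction j with
    | zero =>
      have h1 : ∀ f ∈ I, ∀ᶠ N in atTop, |f (UB.P e a N x₀ - x₀)| < r := by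
        intro f _
        have h2 : Tendsto (fun N => |f (UB.P e a N x₀ - x₀)|) atTop (𝓝 |f (x₀ - x₀)|) :=
          ((f.continuous.tendsto _).comp ((h.tendsto_P x₀).sub_const x₀)).abs
        rw [sub_self, map_zero, abs_zero] at h2
        exact h2.eventually (gt_mem_nhds hr)
      have h3 : ∀ᶠ N in atTop, ∀ f ∈ I, |f (UB.P e a N x₀ - x₀)| < r :=
        (Filter.eventually_all_finset I).2 h1
      obtain ⟨N, hN⟩ := h3.exists
      refine ⟨UB.P e a N x₀, N, h.P_P le_rfl _, (h.norm_P_le _ _).trans hx₀, hN, ?_⟩
      simp only [Nat.cast_zero, zero_mul]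
      exact Finset.sum_nonneg fun f _ => UB.G_nonneg f _
    | succ j ih =>
      obtain ⟨y, N₀, hy, hy1, hyr, hyG⟩ := ih
      -- remaining margin
      obtain ⟨η, hη, hηr⟩ : ∃ η : ℝ, 0 < η ∧ ∀ f ∈ I, |f (y - x₀)| + η ≤ r := by
        rcases I.eq_empty_or_nonempty with hI | hI
        · exact ⟨1, one_pos, by simp [hI]⟩
        · obtain ⟨f₀, hf₀, hmax⟩ := I.exists_max_image (fun f => |f (y - x₀)|) hI
          refine ⟨r - |f₀ (y - x₀)|, sub_pos.2 (hyr f₀ hf₀), fun f hf => ?_⟩
          have := hmax f hf
          linarith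
      set K : ℝ := ∑ f ∈ I, ‖f‖ with hK
      have hK0 : 0 ≤ K := Finset.sum_nonneg fun f _ => norm_nonneg f
      have hfK : ∀ f ∈ I, ‖f‖ ≤ K := fun f hf =>
        Finset.single_le_sum (f := fun f : StrongDual ℝ X => ‖f‖) (fun g _ => norm_nonneg g) hf
      set δ : ℝ := min (1 / (j + 1)) (η / (2 * (K + 1))) with hδ
      have hδ0 : 0 < δ := lt_min (by positivity) (by positivity)
      have hδ1 : δ * (j + 1) ≤ 1 := by
        have : δ ≤ 1 / (j + 1) := min_le_left _ _
        rwa [le_div_iff₀ (by positivity)] at this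
      have hδ2 : δ * (K + 1) ≤ η / 2 := by
        have : δ ≤ η / (2 * (K + 1)) := min_le_right _ _
        rw [le_div_iff₀ (by positivity)] at this
        linarith
      -- far away vectors
      have step : ∀ N, N₀ ≤ N → ∃ z M, UB.P e a N z = 0 ∧ UB.P e a M z = z ∧ N ≤ M ∧
          ‖y + z‖ ≤ 1 + δ ∧ ∃ f ∈ I, ε < |f z| := by
        intro N hN
        obtain ⟨z, hz, hz1, f, hf, hfz⟩ := hcon y N δ hδ0 (h.P_mono hN hy) hy1 hyr
        have h1 : Tendsto (fun M => |f (UB.P e a M z)|) atTop (𝓝 |f z|) :=
          ((f.continuous.tendsto _).comp (h.tendsto_P z)).abs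
        obtain ⟨M, hM1, hM2⟩ := ((h1.eventually (lt_mem_nhds hfz)).and
          (eventually_ge_atTop N)).exists
        refine ⟨UB.P e a M z, M, ?_, h.P_P le_rfl _, hM2, ?_, f, hf, hM1⟩
        · rw [h.P_P' hM2, hz]
        · have h2 : y + UB.P e a M z = UB.P e a M (y + z) := by
            rw [h.P_add, h.P_mono (hN.trans hM2) hy]
          rw [h2]
          exact (h.norm_P_le _ _).trans hz1
      choose! z M hz0 hzM hNM hz1 f hfI hfz using step
      -- bounded values
      have hzb : ∀ N, N₀ ≤ N → ‖z N‖ ≤ 3 := by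
        intro N hN
        have h1 : z N = (y + z N) - y := by abel
        have h2 := _root_.norm_sub_le (y + z N) y
        rw [← h1] at h2
        have h3 := hz1 N hN
        have h4 : δ ≤ 1 := by
          have : δ * 1 ≤ δ * (j + 1) := by
            apply mul_le_mul_of_nonneg_left _ hδ0.le
            have : (0 : ℝ) ≤ j := Nat.cast_nonneg j
            linarith
          linarith
        linarith
      obtain ⟨m, n, hm, hn, hmn, hclose⟩ := exists_close (ι := I)
        (fun N f => if N₀ ≤ N then (f : StrongDual ℝ X) (z N) else 0) (3 * K) (by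
          intro N f
          by_cases hN : N₀ ≤ N
          · simp only [hN, if_true]
            have h1 := (f : StrongDual ℝ X).le_opNorm (z N)
            rw [Real.norm_eq_abs] at h1
            have h2 := hfK f f.2
            have h3 := hzb N hN
            calc |(f : StrongDual ℝ X) (z N)| ≤ ‖(f : StrongDual ℝ X)‖ * ‖z N‖ := h1
              _ ≤ K * 3 := by gcongr
              _ = 3 * K := by ring
          · simp only [hN, if_false, abs_zero]
            positivity) M hη N₀
      simp only [hm, hn, if_true] at hclose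
      -- the new vector
      set u : X := (1 / 2 : ℝ) • (z m - z n) with hu
      have hPn : UB.P e a (M m) (z n) = 0 := h.P_zero_mono hmn (hz0 n hn)
      have hMm : N₀ ≤ M m := hm.trans (hNM m hm)
      have hyu : ‖y + u‖ ≤ 1 + δ := by
        have h1 : y + u = (1 / 2 : ℝ) • (y + z m) + (1 / 2 : ℝ) • (y - z n) := by
          rw [hu, smul_sub, smul_add, smul_sub]
          have : y = (1 / 2 : ℝ) • y + (1 / 2 : ℝ) • y := by
            rw [← add_smul]; norm_num
          nth_rewrite 1 [this]
          abel
        have h2 : ‖y - z n‖ ≤ 1 + δ :=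
          (h.norm_sub_le (h.P_mono hn hy) (hz0 n hn)).trans (hz1 n hn)
        have h3 := hz1 m hm
        rw [h1]
        refine (norm_add_le _ _).trans ?_
        rw [norm_smul, norm_smul, Real.norm_of_nonneg (by norm_num)]
        linarith
      set c : ℝ := (1 + δ)⁻¹ with hc
      have hc0 : 0 < c := by positivity
      have hc1 : c * (1 + δ) = 1 := inv_mul_cancel₀ (by positivity)
      have hc2 : 1 - c ≤ δ := by
        have : 1 - c = c * δ := by linarith [hc1, mul_add c 1 δ, mul_one c]
        rw [this]
        have : c ≤ 1 := by nlinarith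
        nlinarith
      have hc3 : 0 ≤ 1 - c := by
        have : c ≤ 1 := by nlinarith
        linarith
      refine ⟨c • (y + u), max N₀ (max (M m) (M n)), ?_, ?_, ?_, ?_⟩
      · rw [h.P_smul, h.P_add, h.P_mono (le_max_left _ _) hy, hu, h.P_smul, h.P_sub,
          h.P_mono ((le_max_left _ _).trans (le_max_right _ _)) (hzM m hm),
          h.P_mono ((le_max_right _ _).trans (le_max_right _ _)) (hzM n hn)]
      · rw [norm_smul, Real.norm_of_nonneg hc0.le]
        calc c * ‖y + u‖ ≤ c * (1 + δ) := by gcongr
          _ = 1 := hc1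
      · intro f hf
        have h1 : f (c • (y + u) - x₀) = f (y - x₀) - (1 - c) * f y + c * f u := by
          simp only [map_sub, map_smul, map_add, smul_eq_mul]
          ring
        have h2 : |f u| < η / 2 := by
          have := hclose ⟨f, hf⟩
          simp only at this
          rw [hu, map_smul, map_sub, smul_eq_mul, abs_mul, abs_of_pos (by norm_num : (0:ℝ) < 1/2)]
          linarith
        have h3 : |f y| ≤ K := by
          have h4 := f.le_opNorm y
          rw [Real.norm_eq_abs] at h4
          have h5 := hfK f hf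
          calc |f y| ≤ ‖f‖ * ‖y‖ := h4
            _ ≤ K * 1 := by gcongr
            _ = K := mul_one K
        have h4 := hηr f hf
        rw [h1]
        have h5 : |(1 - c) * f y| ≤ δ * K := by
          rw [abs_mul, abs_of_nonneg hc3]
          gcongr
        have h6 : |c * f u| < η / 2 := by
          rw [abs_mul, abs_of_pos hc0]
          have : c ≤ 1 := by linarith
          have h7 : c * |f u| ≤ 1 * |f u| := by gcongr
          linarith
        have h7 := abs_add_le (f (y - x₀) - (1 - c) * f y) (c * f u)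
        have h8 := abs_sub (f (y - x₀)) ((1 - c) * f y)
        have h9 : δ * K ≤ η / 2 := by nlinarith
        linarith
      · -- the mass
        have hGu : G (y + u) = G y + (1 / 2) * G (z m) + (1 / 2) * G (z n) := by
          simp only [hG]
          rw [Finset.mul_sum, Finset.mul_sum, ← Finset.sum_add_distrib, ← Finset.sum_add_distrib]
          apply Finset.sum_congr rfl
          intro f _
          have e1 : y + u = y + ((1 / 2 : ℝ) • z m + (-(1 / 2) : ℝ) • z n) := by
            rw [hu, smul_sub, neg_smul, sub_eq_add_neg]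
          rw [e1, h.G_disj f, h.G_disj f, h.G_smul, h.G_smul]
          · rw [abs_neg, abs_of_pos (by norm_num : (0:ℝ) < 1/2)]
            ring
          · intro k
            rw [h.smul, h.smul]
            by_cases hk : k < M m
            · right
              simp only
              rw [h.coef_of_P_zero hPn hk, mul_zero]
            · left
              simp only
              rw [h.coef_of_P_eq (hzM m hm) (not_lt.1 hk), mul_zero]
          · intro k
            by_cases hk : k < N₀
            · right
              rw [h.add, h.smul, h.smul]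
              simp only
              rw [h.coef_of_P_zero (h.P_zero_mono hm (hz0 m hm)) hk,
                h.coef_of_P_zero (h.P_zero_mono hn (hz0 n hn)) hk]
              ring
            · left
              exact h.coef_of_P_eq hy (not_lt.1 hk)
        have hGm : ε ≤ G (z m) := by
          have h1 : Gf e a (f m) (z m) ≤ G (z m) :=
            Finset.single_le_sum (f := fun f => Gf e a f (z m))
              (fun g _ => UB.G_nonneg g _) (hfI m hm)
          have h2 := h.abs_le_G (f m) (z m)
          have h3 := hfz m hm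
          linarith
        have hGn : 0 ≤ G (z n) := Finset.sum_nonneg fun f _ => UB.G_nonneg f _
        have hGc : G (c • (y + u)) = c * G (y + u) := by
          simp only [hG]
          rw [Finset.mul_sum]
          apply Finset.sum_congr rfl
          intro f _
          rw [h.G_smul, abs_of_pos hc0]
        rw [hGc, hGu]
        have h1 : (j : ℝ) * (ε / 4) + ε / 2 ≤ G y + 1 / 2 * G (z m) + 1 / 2 * G (z n) := by
          linarith
        have h2 : ((j + 1 : ℕ) : ℝ) * (ε / 4) * (1 + δ) ≤ (j : ℝ) * (ε / 4) + ε / 2 := by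
          push_cast
          nlinarith
        calc ((j + 1 : ℕ) : ℝ) * (ε / 4)
            = c * (((j + 1 : ℕ) : ℝ) * (ε / 4) * (1 + δ)) := by
              rw [mul_comm c, mul_assoc _ (1 + δ) c, mul_comm (1 + δ) c, hc1, mul_one]
          _ ≤ c * (G y + 1 / 2 * G (z m) + 1 / 2 * G (z n)) := by
              gcongr
              linarith
  obtain ⟨j, hj⟩ := exists_nat_gt ((∑ f ∈ I, ‖f‖) / (ε / 4))
  obtain ⟨y, N, _, hy1, _, hyG⟩ := key j
  have h1 : G y ≤ ∑ f ∈ I, ‖f‖ := by
    simp only [hG]
    apply Finset.sum_le_sum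
    intro f _
    refine (h.G_le f y).trans ?_
    have := norm_nonneg f
    nlinarith
  rw [div_lt_iff₀ (by positivity)] at hj
  linarith

end Pool.Agent.U53.PB
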