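import Mathlib
import Pool.Agent.U53.PiBaseB

set_option autoImplicit false

/-! The countable family of open sets -/

namespace Pool.Agent.U53.PB

open Filter Topology

variable {X : Type} [NormedAddCommGroup X] [NormedSpace ℝ X]
variable {e : ℕ → X} {a : X → ℕ → ℝ}

/-- continuity of functionals on the weak space -/
theorem cont_weak (f : StrongDual ℝ X) :
    Continuous (fun x : WeakSpace ℝ X => f ((toWeakSpace ℝ X).symm x)) :=
  WeakBilin.eval_continuous (topDualPairing ℝ X).flip f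

/-- the index set -/
abbrev Idx : Type := (Σ N : ℕ, Fin N → ℚ) × ℕ

/-- the open set of all `x` whose first coefficients are near `q` -/
def OS (a : X → ℕ → ℝ) (t : Idx) : Set (WeakSpace ℝ X) :=
  {x | ∀ i : Fin t.1.1, |a ((toWeakSpace ℝ X).symm x) i - t.1.2 i| < 1 / ((t.2 : ℝ) + 1)}

theorem isOpen_OS (h : UB e a) (t : Idx) : IsOpen (OS a t) := by
  have : OS a t = ⋂ i : Fin t.1.1,
      {x | |h.coord i ((toWeakSpace ℝ X).symm x) - t.1.2 i| < 1 / ((t.2 : ℝ) + 1)} := by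
    ext x
    simp [OS, UB.coord_apply]
  rw [this]
  apply isOpen_iInter_of_finite
  intro i
  exact isOpen_lt (((cont_weak (h.coord i)).sub continuous_const).abs) continuous_const

/-- weak neighbourhoods -/
theorem weak_nhds {V : Set (WeakSpace ℝ X)} (hV : IsOpen V) {x₀ : X}
    (hx : toWeakSpace ℝ X x₀ ∈ V) : ∃ (I : Finset (StrongDual ℝ X)) (r : ℝ), 0 < r ∧
      ∀ x : X, (∀ f ∈ I, |f (x - x₀)| < r) → toWeakSpace ℝ X x ∈ V := by
  obtain ⟨O, hO, hOV⟩ := isOpen_induced_iff.1 hV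
  rw [← hOV] at hx
  rw [isOpen_pi_iff] at hO
  obtain ⟨I, u, hu, hIu⟩ := hO _ hx
  have h1 : ∀ f : StrongDual ℝ X, ∃ r : ℝ, 0 < r ∧ (f ∈ I → Metric.ball (f x₀) r ⊆ u f) := by
    intro f
    by_cases hf : f ∈ I
    · obtain ⟨r, hr, hr'⟩ := Metric.isOpen_iff.1 (hu f hf).1 _ (hu f hf).2
      exact ⟨r, hr, fun _ => hr'⟩
    · exact ⟨1, one_pos, fun h => absurd h hf⟩
  choose ρ hρ0 hρ using h1
  obtain ⟨r, hr0, hr⟩ : ∃ r : ℝ, 0 < r ∧ ∀ f ∈ I, r ≤ ρ f := by
    rcases I.eq_empty_or_nonempty with hI | hI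
    · exact ⟨1, one_pos, by simp [hI]⟩
    · obtain ⟨f₀, hf₀, hmin⟩ := I.exists_min_image ρ hI
      exact ⟨ρ f₀, hρ0 f₀, hmin⟩
  refine ⟨I, r, hr0, fun x hxI => ?_⟩
  rw [← hOV]
  apply hIu
  intro f hf
  apply hρ f hf
  rw [Metric.mem_ball, Real.dist_eq]
  have h2 := hxI f hf
  rw [map_sub] at h2
  exact lt_of_lt_of_le h2 (hr f hf)

theorem main (h : UB e a) :
    ∃ U : ℕ → Set (WeakSpace ℝ X),
        (∀ n, IsOpen (U n) ∧
            (U n ∩ (toWeakSpace ℝ X) '' Metric.closedBall (0 : X) 1).Nonempty) ∧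
        ∀ V : Set (WeakSpace ℝ X), IsOpen V →
          (V ∩ (toWeakSpace ℝ X) '' Metric.closedBall (0 : X) 1).Nonempty →
            ∃ n, U n ∩ (toWeakSpace ℝ X) '' Metric.closedBall (0 : X) 1 ⊆ V := by
  classical
  let J : Type := {t : Idx // (OS a t ∩ (toWeakSpace ℝ X) '' Metric.closedBall (0 : X) 1).Nonempty}
  have hJc : Countable J := inferInstance
  have hJn : Nonempty J := by
    refine ⟨⟨(⟨0, fun _ => 0⟩, 0), toWeakSpace ℝ X 0, ?_, 0, by simp, rfl⟩⟩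
    intro i
    exact i.elim0
  obtain ⟨g, hg⟩ := exists_surjective_nat J
  refine ⟨fun n => OS a (g n).1, fun n => ⟨isOpen_OS h _, (g n).2⟩, fun V hV hVB => ?_⟩
  obtain ⟨_, hx₀V, x₀, hx₀, rfl⟩ := hVB
  rw [mem_closedBall_zero_iff] at hx₀
  obtain ⟨I, r, hr, hI⟩ := weak_nhds hV hx₀V
  obtain ⟨y, N, δ, hδ, hy, hy1, hyr, hgood⟩ :=
    exists_good h I x₀ hx₀ (r := r / 3) (ε := r / 3) (by positivity) (by positivity)
  set K : ℝ := ∑ f ∈ I, ‖f‖ with hK
  have hK0 : 0 ≤ K := Finset.sum_nonneg fun f _ => norm_nonneg f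
  have hfK : ∀ f ∈ I, ‖f‖ ≤ K := fun f hf =>
    Finset.single_le_sum (f := fun f : StrongDual ℝ X => ‖f‖) (fun g _ => norm_nonneg g) hf
  set E : ℝ := ∑ n ∈ Finset.range N, ‖e n‖ with hE
  have hE0 : 0 ≤ E := Finset.sum_nonneg fun f _ => norm_nonneg _
  -- the precision
  obtain ⟨m, hm⟩ := exists_nat_one_div_lt (show 0 < min (δ / (2 * (E + 1)))
    (r / (6 * (K + 1) * (E + 1))) from lt_min (by positivity) (by positivity))
  have hm1 : 2 * (1 / ((m : ℝ) + 1)) * E ≤ δ := by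
    have h1 : 1 / ((m : ℝ) + 1) ≤ δ / (2 * (E + 1)) := (hm.le).trans (min_le_left _ _)
    rw [le_div_iff₀ (by positivity)] at h1
    have h2 : 0 ≤ 1 / ((m : ℝ) + 1) := by positivity
    nlinarith
  have hm2 : K * (2 * (1 / ((m : ℝ) + 1)) * E) < r / 3 := by
    have h1 : 1 / ((m : ℝ) + 1) < r / (6 * (K + 1) * (E + 1)) := hm.trans_le (min_le_right _ _)
    rw [lt_div_iff₀ (by positivity)] at h1
    have h2 : 0 < 1 / ((m : ℝ) + 1) := by positivity
    have h3 : K * E ≤ (K + 1) * (E + 1) := by nlinarith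
    nlinarith
  have hq : ∀ i : Fin N, ∃ q : ℚ, |a y i - q| < 1 / ((m : ℝ) + 1) := by
    intro i
    obtain ⟨q, hq⟩ := exists_rat_near (a y i) (show 0 < 1 / ((m : ℝ) + 1) by positivity)
    exact ⟨q, hq⟩
  choose q hq using hq
  have hyOS : toWeakSpace ℝ X y ∈ OS a (⟨N, q⟩, m) := by
    intro i
    simpa using hq i
  obtain ⟨n, hn⟩ := hg ⟨(⟨N, q⟩, m), toWeakSpace ℝ X y, hyOS, y,
    by rw [mem_closedBall_zero_iff]; exact hy1, rfl⟩
  refine ⟨n, ?_⟩
  simp only [hn]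
  rintro _ ⟨hxO, x, hx1, rfl⟩
  rw [mem_closedBall_zero_iff] at hx1
  apply hI
  -- distance of the partial sum from `y`
  have hPy : ‖UB.P e a N x - y‖ ≤ 2 * (1 / ((m : ℝ) + 1)) * E := by
    have h1 : UB.P e a N x - y = ∑ k ∈ Finset.range N, (a x k - a y k) • e k := by
      nth_rewrite 1 [← hy]
      rw [UB.P, UB.P, ← Finset.sum_sub_distrib]
      apply Finset.sum_congr rfl
      intro k _
      rw [sub_smul]
    rw [h1, hE, Finset.mul_sum]
    refine (norm_sum_le _ _).trans (Finset.sum_le_sum fun k hk => ?_)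
    rw [norm_smul, Real.norm_eq_abs]
    gcongr
    have hk' := Finset.mem_range.1 hk
    have h2 := hq ⟨k, hk'⟩
    have h3 := hxO ⟨k, hk'⟩
    simp only [LinearEquiv.symm_apply_apply] at h3
    have h4 : a x k - a y k = (a x k - q ⟨k, hk'⟩) - (a y k - q ⟨k, hk'⟩) := by ring
    rw [h4]
    have h5 := abs_sub (a x k - (q ⟨k, hk'⟩ : ℝ)) (a y k - q ⟨k, hk'⟩)
    simp only at h2 h3
    linarith
  set z : X := x - UB.P e a N x with hz
  have hz0 : UB.P e a N z = 0 := by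
    rw [hz, h.P_sub, h.P_P le_rfl, sub_self]
  have hyz : ‖y + z‖ ≤ 1 + δ := by
    have h1 : y + z = x - (UB.P e a N x - y) := by rw [hz]; abel
    rw [h1]
    have := _root_.norm_sub_le x (UB.P e a N x - y)
    linarith
  intro f hf
  have h1 := hgood z hz0 hyz f hf
  have h2 := hyr f hf
  have h3 : |f (UB.P e a N x - y)| ≤ K * (2 * (1 / ((m : ℝ) + 1)) * E) := by
    have h4 := f.le_opNorm (UB.P e a N x - y)
    rw [Real.norm_eq_abs] at h4
    have h5 := hfK f hf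
    calc _ ≤ _ := h4
      _ ≤ _ := by gcongr
  have h4 : f (x - x₀) = f (y - x₀) + f (UB.P e a N x - y) + f z := by
    rw [← map_add, ← map_add]
    congr 1
    rw [hz]
    abel
  rw [h4]
  have h5 := abs_add_le (f (y - x₀) + f (UB.P e a N x - y)) (f z)
  have h6 := abs_add_le (f (y - x₀)) (f (UB.P e a N x - y))
  linarith

end Pool.Agent.U53.PB
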