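import Pool.Agent.U53.ShiftHalf

set_option autoImplicit false

open MeasureTheory Set Filter Topology
open scoped ENNReal InnerProductSpace

namespace Pool.Agent.U53.ShiftHalf

lemma int_formula (v : ℝ → ℝ) {t : ℝ} (ht : 0 ≤ t) (x : HS) :
    ∫ ξ, v ξ * ‖(T t x : HS) ξ‖ ^ 2 ∂mu
      = ∫ ξ, v (ξ + t) * ((1 + ξ) / (1 + ξ + t)) * ‖(x : HS) ξ‖ ^ 2 ∂mu := by
  set g : ℝ → ℝ := fun η => v (η + t) * ((1 + η) / (1 + η + t)) * ‖(x : HS) η‖ ^ 2 with hg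
  have h1 : (fun ξ => v ξ * ‖(T t x : HS) ξ‖ ^ 2) =ᵐ[mu]
      (Ioi t).indicator (fun ξ => g (ξ - t)) := by
    filter_upwards [T_ae ht x, ae_pos] with ξ h1 hξ
    rw [h1]
    by_cases h2 : t < ξ
    · rw [if_pos h2, indicator_of_mem (show ξ ∈ Ioi t from h2), norm_mul, mul_pow, Complex.norm_real,
        Real.norm_eq_abs, sq_abs, div_pow, Real.sq_sqrt (by linarith), Real.sq_sqrt (by linarith)]
      simp only [hg]
      have e1 : ξ - t + t = ξ := by ring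
      have e2 : 1 + (ξ - t) + t = 1 + ξ := by ring
      have e3 : 1 + (ξ - t) = 1 + ξ - t := by ring
      rw [e1, e2, e3, mul_assoc]
    · rw [if_neg h2, indicator_of_notMem (show ξ ∉ Ioi t from h2)]
      simp
  rw [integral_congr_ae h1, integral_indicator measurableSet_Ioi, mu_restrict ht]
  have hemb : MeasurableEmbedding (fun x : ℝ => x - t) :=
    (MeasurableEquiv.subRight t).measurableEmbedding
  exact (mp_sub t).integral_comp hemb g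

lemma sq_integrable (x : HS) : Integrable (fun ξ => ‖(x : HS) ξ‖ ^ 2) mu := by
  have h := L2.integrable_inner (𝕜 := ℂ) x x
  have h2 := h.re
  refine h2.congr (Filter.Eventually.of_forall (fun ξ => ?_))
  simp only [inner_self_eq_norm_sq_to_K]
  norm_cast

lemma normsq (x : HS) : ‖x‖ ^ 2 = ∫ ξ, ‖(x : HS) ξ‖ ^ 2 ∂mu := by
  have h : ⟪x, x⟫_ℂ = ((∫ ξ, ‖(x : HS) ξ‖ ^ 2 ∂mu : ℝ) : ℂ) := by
    rw [L2.inner_def, ← integral_complex_ofReal]
    refine integral_congr_ae (Filter.Eventually.of_forall (fun ξ => ?_))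
    simp only [inner_self_eq_norm_sq_to_K]
    norm_cast
  have h2 : RCLike.re ⟪x, x⟫_ℂ = ‖x‖ ^ 2 := inner_self_eq_norm_sq x
  rw [h] at h2
  simpa using h2.symm

section V
variable (v : ℝ → ℝ) (hv : Measurable v) (hv1 : ∀ x, |v x| ≤ 1)

/-- multiplication operator -/
noncomputable def V : HS →L[ℂ] HS := Op v hv hv1 0 le_rfl

lemma V_ae (x : HS) : V v hv hv1 x =ᵐ[mu] fun ξ => (v ξ : ℂ) * x ξ := by
  refine (Op_ae _ _ _ _ _ x).trans ?_
  filter_upwards [ae_pos] with ξ hξ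
  simp only [sh, if_pos hξ, sub_zero]

lemma V_norm_le (x : HS) : ‖V v hv hv1 x‖ ≤ ‖x‖ :=
  ((V v hv hv1).le_of_opNorm_le (Op_norm v hv hv1 0 le_rfl) x).trans (le_of_eq (one_mul _))

lemma V_inner (x : HS) : ⟪x, V v hv hv1 x⟫_ℂ = ((∫ ξ, v ξ * ‖(x : HS) ξ‖ ^ 2 ∂mu : ℝ) : ℂ) := by
  rw [L2.inner_def, ← integral_complex_ofReal]
  refine integral_congr_ae ?_
  filter_upwards [V_ae v hv hv1 x] with ξ h
  rw [h]
  rw [← smul_eq_mul, inner_smul_right, inner_self_eq_norm_sq_to_K]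
  push_cast
  rfl

lemma V_symm (x y : HS) : ⟪x, V v hv hv1 y⟫_ℂ = ⟪V v hv hv1 x, y⟫_ℂ := by
  rw [L2.inner_def, L2.inner_def]
  refine integral_congr_ae ?_
  filter_upwards [V_ae v hv hv1 x, V_ae v hv hv1 y] with ξ h h'
  rw [h, h', ← smul_eq_mul, ← smul_eq_mul, inner_smul_right, inner_smul_left, Complex.conj_ofReal]

end V

/-- The test function. -/
noncomputable def vf (β : ℝ) (ξ : ℝ) : ℝ := 2 * (1 + |ξ|) / (1 + |ξ| + β) - 1

lemma vf_meas (β : ℝ) : Measurable (vf β) := by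
  unfold vf; fun_prop

lemma vf_le {β : ℝ} (hβ : 0 < β) (ξ : ℝ) : |vf β ξ| ≤ 1 := by
  unfold vf
  have h0 : 0 ≤ |ξ| := abs_nonneg _
  have hpos : 0 < 1 + |ξ| + β := by positivity
  rw [abs_le]
  constructor
  · have : 0 ≤ 2 * (1 + |ξ|) / (1 + |ξ| + β) := by positivity
    linarith
  · have : 2 * (1 + |ξ|) / (1 + |ξ| + β) ≤ 2 := by
      rw [div_le_iff₀ hpos]; nlinarith
    linarith

/-- the kernel after change of variables -/
lemma ker_eq {β t ξ : ℝ} (ht : 0 ≤ t) (hξ : 0 < ξ) (hβ : 0 < β) :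
    vf β (ξ + t) * ((1 + ξ) / (1 + ξ + t))
      = (1 + ξ) * (2 / (1 + ξ + t + β) - 1 / (1 + ξ + t)) := by
  unfold vf
  rw [abs_of_pos (by linarith)]
  have h1 : 1 + (ξ + t) + β ≠ 0 := by positivity
  have h2 : 1 + ξ + t ≠ 0 := by positivity
  have h3 : 1 + ξ + t + β ≠ 0 := by positivity
  field_simp
  ring

lemma ker_bd {β t ξ : ℝ} (ht : 0 ≤ t) (hξ : 0 < ξ) (hβ : 0 < β) :
    |vf β (ξ + t) * ((1 + ξ) / (1 + ξ + t))| ≤ 1 := by
  rw [abs_mul]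
  have h1 := vf_le hβ (ξ + t)
  have h2 : |(1 + ξ) / (1 + ξ + t)| ≤ 1 := by
    rw [abs_of_nonneg (by positivity)]
    exact div_le_one_of_le₀ (by linarith) (by linarith)
  calc _ ≤ 1 * 1 := mul_le_mul h1 h2 (abs_nonneg _) zero_le_one
    _ = 1 := one_mul 1

/-- key algebraic inequality -/
lemma key_ineq {β y : ℝ} (hβ : 0 < β) (hy : 0 < y) :
    1 / (4 * β * y) ≤ 1 / y ^ 2 - 2 / (y + β) ^ 2 + (1 / β) * (2 / (y + β) - 1 / y) := by
  have hd : 0 < 4 * β * y ^ 2 * (y + β) ^ 2 := by positivity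
  have e : (1 / y ^ 2 - 2 / (y + β) ^ 2 + (1 / β) * (2 / (y + β) - 1 / y)) - 1 / (4 * β * y)
      = (3 * y * (y - β) ^ 2 + 4 * β ^ 3) / (4 * β * y ^ 2 * (y + β) ^ 2) := by
    field_simp
    ring
  have h2 : 0 ≤ (3 * y * (y - β) ^ 2 + 4 * β ^ 3) / (4 * β * y ^ 2 * (y + β) ^ 2) := by positivity
  linarith

lemma ptwise {β t y : ℝ} (hβ : 0 < β) (hy : 1 ≤ y) (ht : 0 < t) :
    t * (1 / (4 * β) - y * (2 / (y + β) - 1 / y) / β - t)
      ≤ y * (2 / (y + t + β) - 1 / (y + t)) - y * (2 / (y + β) - 1 / y) := by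
  have hy0 : 0 < y := by linarith
  have hk := key_ineq hβ hy0
  have e1 : y * (2 / (y + t + β) - 1 / (y + t)) - y * (2 / (y + β) - 1 / y)
      = t * y * (1 / (y * (y + t)) - 2 / ((y + β) * (y + β + t))) := by
    have h1 : y + t + β ≠ 0 := by positivity
    have h2 : y + β + t ≠ 0 := by positivity
    field_simp
    ring
  rw [e1]
  have h2 : 1 / y ^ 2 - t / y ≤ 1 / (y * (y + t)) := by
    have : 1 / (y * (y + t)) - (1 / y ^ 2 - t / y) = t * (y * (y + t) - 1) / (y ^ 2 * (y + t)) := by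
      field_simp
      ring
    have h3 : 0 ≤ t * (y * (y + t) - 1) / (y ^ 2 * (y + t)) := by
      apply div_nonneg _ (by positivity)
      apply mul_nonneg ht.le
      nlinarith
    linarith
  have h3 : 2 / ((y + β) * (y + β + t)) ≤ 2 / (y + β) ^ 2 := by
    apply div_le_div_of_nonneg_left (by norm_num) (by positivity)
    rw [sq]
    apply mul_le_mul_of_nonneg_left (by linarith) (by linarith)
  have h4 : 1 / (4 * β * y) - (1 / β) * (2 / (y + β) - 1 / y) - t / y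
      ≤ 1 / (y * (y + t)) - 2 / ((y + β) * (y + β + t)) := by linarith
  have h5 : t * y * (1 / (4 * β * y) - (1 / β) * (2 / (y + β) - 1 / y) - t / y)
      ≤ t * y * (1 / (y * (y + t)) - 2 / ((y + β) * (y + β + t))) :=
    mul_le_mul_of_nonneg_left h4 (by positivity)
  have e2 : t * y * (1 / (4 * β * y) - (1 / β) * (2 / (y + β) - 1 / y) - t / y)
      = t * (1 / (4 * β) - y * (2 / (y + β) - 1 / y) / β - t) := by
    field_simp
  linarith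

/-- bounded multiples of `‖x‖²` are integrable -/
lemma ker_integrable {β t : ℝ} (ht : 0 ≤ t) (hβ : 0 < β) (x : HS) :
    Integrable (fun ξ => vf β (ξ + t) * ((1 + ξ) / (1 + ξ + t)) * ‖(x : HS) ξ‖ ^ 2) mu := by
  refine (sq_integrable x).mono ?_ ?_
  · refine AEStronglyMeasurable.mul ?_ (sq_integrable x).1
    apply Measurable.aestronglyMeasurable
    exact ((vf_meas β).comp (measurable_id.add_const t)).mul (by fun_prop)
  · filter_upwards [ae_pos] with ξ hξ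
    rw [norm_mul]
    have := ker_bd (β := β) ht hξ hβ
    calc _ ≤ 1 * ‖‖(x : HS) ξ‖ ^ 2‖ := by
          apply mul_le_mul_of_nonneg_right _ (norm_nonneg _)
          rw [Real.norm_eq_abs]; exact this
      _ = _ := one_mul _

lemma main_ineq {β t : ℝ} (ht : 0 < t) (hβ : 0 < β) (x : HS) :
    t * ((1 / (4 * β)) * ‖x‖ ^ 2 - (∫ ξ, vf β ξ * ‖(x : HS) ξ‖ ^ 2 ∂mu) / β - t * ‖x‖ ^ 2)
      ≤ (∫ ξ, vf β ξ * ‖(T t x : HS) ξ‖ ^ 2 ∂mu) - ∫ ξ, vf β ξ * ‖(x : HS) ξ‖ ^ 2 ∂mu := by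
  have h0 : ∫ ξ, vf β ξ * ‖(x : HS) ξ‖ ^ 2 ∂mu
      = ∫ ξ, vf β (ξ + 0) * ((1 + ξ) / (1 + ξ + 0)) * ‖(x : HS) ξ‖ ^ 2 ∂mu := by
    refine integral_congr_ae ?_
    filter_upwards [ae_pos] with ξ hξ
    rw [add_zero, add_zero, div_self (by positivity), mul_one]
  rw [int_formula (vf β) ht.le x, h0, normsq x]
  have hI0 := ker_integrable (β := β) le_rfl hβ x
  have hIt := ker_integrable (β := β) ht.le hβ x
  have hx := sq_integrable x
  rw [← integral_sub hIt hI0]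
  have e : t * ((1 / (4 * β)) * (∫ ξ, ‖(x : HS) ξ‖ ^ 2 ∂mu)
        - (∫ ξ, vf β (ξ + 0) * ((1 + ξ) / (1 + ξ + 0)) * ‖(x : HS) ξ‖ ^ 2 ∂mu) / β
        - t * ∫ ξ, ‖(x : HS) ξ‖ ^ 2 ∂mu)
      = ∫ ξ, ((t * (1 / (4 * β) - t)) * ‖(x : HS) ξ‖ ^ 2
          - (t / β) * (vf β (ξ + 0) * ((1 + ξ) / (1 + ξ + 0)) * ‖(x : HS) ξ‖ ^ 2)) ∂mu := by
    rw [integral_sub (hx.const_mul _) (hI0.const_mul _), integral_const_mul, integral_const_mul]
    ring
  rw [e]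
  refine integral_mono_ae ((hx.const_mul _).sub (hI0.const_mul _)) (hIt.sub hI0) ?_
  filter_upwards [ae_pos] with ξ hξ
  have hp := ptwise (β := β) (y := 1 + ξ) hβ (by linarith) ht
  rw [ker_eq ht.le hξ hβ, ker_eq le_rfl hξ hβ]
  simp only [add_zero]
  have hn : 0 ≤ ‖(x : HS) ξ‖ ^ 2 := by positivity
  have := mul_le_mul_of_nonneg_right hp hn
  calc _ = t * (1 / (4 * β) - (1 + ξ) * (2 / (1 + ξ + β) - 1 / (1 + ξ)) / β - t) * ‖(x : HS) ξ‖ ^ 2 := by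
        ring
    _ ≤ _ := this
    _ = _ := by ring

theorem lower (x y : HS)
    (hy : Tendsto (fun h : ℝ => ((h : ℂ)⁻¹) • (T h x - x)) (𝓝[>] 0) (𝓝 y))
    (μ : ℂ) (hμ : μ.re < 0) : (1 / 4) * |μ.re| * ‖x‖ ≤ ‖μ • x - y‖ := by
  set s : ℝ := -μ.re with hs
  have hs0 : 0 < s := by rw [hs]; linarith
  set β : ℝ := 1 / (2 * s) with hβd
  have hβ : 0 < β := by positivity
  set W := V (vf β) (vf_meas β) (vf_le hβ) with hW
  have hWin : ∀ z : HS, ⟪z, W z⟫_ℂ = ((∫ ξ, vf β ξ * ‖(z : HS) ξ‖ ^ 2 ∂mu : ℝ) : ℂ) :=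
    fun z => V_inner _ _ _ z
  set Q : HS → ℝ := fun z => ∫ ξ, vf β ξ * ‖(z : HS) ξ‖ ^ 2 ∂mu with hQ
  have hTx : Tendsto (fun h : ℝ => T h x) (𝓝[>] 0) (𝓝 x) :=
    (T_tendsto_zero x).mono_left (nhdsWithin_mono _ Ioi_subset_Ici_self)
  -- the limit of the difference quotients
  have hlim : Tendsto (fun h : ℝ => (⟪((h : ℂ)⁻¹) • (T h x - x), W (T h x)⟫_ℂ).re
      + (⟪x, W (((h : ℂ)⁻¹) • (T h x - x))⟫_ℂ).re) (𝓝[>] 0)
      (𝓝 ((⟪y, W x⟫_ℂ).re + (⟪x, W y⟫_ℂ).re)) := by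
    have h1 : Tendsto (fun h : ℝ => W (T h x)) (𝓝[>] 0) (𝓝 (W x)) :=
      (W.continuous.tendsto x).comp hTx
    have h2 : Tendsto (fun h : ℝ => W (((h : ℂ)⁻¹) • (T h x - x))) (𝓝[>] 0) (𝓝 (W y)) :=
      (W.continuous.tendsto y).comp hy
    have h3 := (hy.inner h1 (𝕜 := ℂ))
    have h4 := (tendsto_const_nhds (x := x)).inner h2 (𝕜 := ℂ)
    exact ((Complex.continuous_re.tendsto _).comp h3).add ((Complex.continuous_re.tendsto _).comp h4)
  have hlow : Tendsto (fun h : ℝ => (1 / (4 * β)) * ‖x‖ ^ 2 - Q x / β - h * ‖x‖ ^ 2) (𝓝[>] 0)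
      (𝓝 ((1 / (4 * β)) * ‖x‖ ^ 2 - Q x / β)) := by
    have h1 : Tendsto (fun h : ℝ => (1 / (4 * β)) * ‖x‖ ^ 2 - Q x / β - h * ‖x‖ ^ 2) (𝓝 0)
      (𝓝 ((1 / (4 * β)) * ‖x‖ ^ 2 - Q x / β - 0 * ‖x‖ ^ 2)) := by
      apply Continuous.tendsto
      fun_prop
    rw [zero_mul, sub_zero] at h1
    exact h1.mono_left nhdsWithin_le_nhds
  have hcmp : (1 / (4 * β)) * ‖x‖ ^ 2 - Q x / β ≤ (⟪y, W x⟫_ℂ).re + (⟪x, W y⟫_ℂ).re := by
    refine le_of_tendsto_of_tendsto hlow hlim ?_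
    filter_upwards [self_mem_nhdsWithin] with h hh
    have hh0 : 0 < h := hh
    have hm := main_ineq (β := β) hh0 hβ x
    have e1 : (⟪((h : ℂ)⁻¹) • (T h x - x), W (T h x)⟫_ℂ).re
      + (⟪x, W (((h : ℂ)⁻¹) • (T h x - x))⟫_ℂ).re = h⁻¹ * (Q (T h x) - Q x) := by
      have e2 : (Q (T h x) - Q x : ℝ) = (⟪T h x - x, W (T h x)⟫_ℂ + ⟪x, W (T h x - x)⟫_ℂ).re := by
        rw [map_sub, inner_sub_left, inner_sub_right]
        have : (⟪T h x, W (T h x)⟫_ℂ - ⟪x, W (T h x)⟫_ℂ + (⟪x, W (T h x)⟫_ℂ - ⟪x, W x⟫_ℂ))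
          = ⟪T h x, W (T h x)⟫_ℂ - ⟪x, W x⟫_ℂ := by ring
        rw [this, hWin, hWin, ← Complex.ofReal_sub, Complex.ofReal_re]
      rw [e2, map_smul, inner_smul_left, inner_smul_right]
      have e3 : (starRingEnd ℂ) ((h : ℂ)⁻¹) = ((h⁻¹ : ℝ) : ℂ) := by
        rw [← Complex.ofReal_inv, Complex.conj_ofReal]
      rw [e3, ← Complex.ofReal_inv, Complex.re_ofReal_mul, Complex.re_ofReal_mul, Complex.add_re]
      ring
    rw [e1]
    have h3 : h⁻¹ * (h * ((1 / (4 * β)) * ‖x‖ ^ 2 - Q x / β - h * ‖x‖ ^ 2)) ≤ h⁻¹ * (Q (T h x) - Q x) :=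
      mul_le_mul_of_nonneg_left hm (by positivity)
    rwa [← mul_assoc, inv_mul_cancel₀ hh0.ne', one_mul] at h3
  -- symmetric
  have hsym : (⟪x, W y⟫_ℂ).re = (⟪y, W x⟫_ℂ).re := by
    rw [hW, V_symm, ← inner_conj_symm, Complex.conj_re]
  rw [hsym] at hcmp
  have hy2 : (⟪y, W x⟫_ℂ).re = -s * Q x - (⟪μ • x - y, W x⟫_ℂ).re := by
    have : y = μ • x - (μ • x - y) := by abel
    conv_lhs => rw [this]
    rw [inner_sub_left, Complex.sub_re, inner_smul_left, hWin, Complex.re_mul_ofReal, Complex.conj_re]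
    rw [hs]
    ring
  rw [hy2] at hcmp
  have hb1 : 1 / (4 * β) = s / 2 := by rw [hβd]; field_simp; ring
  have hb2 : Q x / β = 2 * s * Q x := by rw [hβd]; field_simp
  rw [hb1, hb2] at hcmp
  have hcs : -(⟪μ • x - y, W x⟫_ℂ).re ≤ ‖μ • x - y‖ * ‖x‖ := by
    have h1 : |(⟪μ • x - y, W x⟫_ℂ).re| ≤ ‖⟪μ • x - y, W x⟫_ℂ‖ := Complex.abs_re_le_norm _
    have h2 := norm_inner_le_norm (𝕜 := ℂ) (μ • x - y) (W x)
    have h3 : ‖W x‖ ≤ ‖x‖ := V_norm_le _ _ _ x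
    have h4 : ‖μ • x - y‖ * ‖W x‖ ≤ ‖μ • x - y‖ * ‖x‖ := mul_le_mul_of_nonneg_left h3 (norm_nonneg _)
    have h5 := neg_le_abs (⟪μ • x - y, W x⟫_ℂ).re
    linarith
  have hfin : s / 2 * ‖x‖ ^ 2 ≤ 2 * (‖μ • x - y‖ * ‖x‖) := by linarith
  have habs : |μ.re| = s := by rw [abs_of_neg hμ]
  rw [habs]
  rcases eq_or_lt_of_le (norm_nonneg x) with h0 | h0
  · rw [← h0]; simp
  · have : (s / 2 * ‖x‖) * ‖x‖ ≤ (2 * ‖μ • x - y‖) * ‖x‖ := by nlinarith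
    have h6 := le_of_mul_le_mul_right this h0
    linarith

/-- the test vector -/
noncomputable def e0 : HS := indicatorConstLp 2 (s := Ioo (0 : ℝ) 1) measurableSet_Ioo
  (by
    unfold mu
    exact ((Measure.restrict_apply_le _ _).trans_lt (by simp)).ne) (1 : ℂ)

lemma mu_Ioo : mu (Ioo (0 : ℝ) 1) = 1 := by
  unfold mu
  rw [Measure.restrict_apply measurableSet_Ioo]
  have : Ioo (0 : ℝ) 1 ∩ Ioi 0 = Ioo 0 1 := by
    ext x; simp only [mem_inter_iff, mem_Ioo, mem_Ioi]; tauto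
  rw [this]; simp

lemma e0_norm : ‖e0‖ = 1 := by
  unfold e0
  rw [norm_indicatorConstLp (by norm_num) (by norm_num)]
  simp [Measure.real, mu_Ioo]

lemma T_e0 {t : ℝ} (ht : 0 ≤ t) : ‖T t e0‖ ^ 2 ≤ 2 / (1 + t) := by
  have h1 := int_formula (fun _ => 1) ht e0
  simp only [one_mul] at h1
  rw [normsq, h1]
  have h2 : (2 / (1 + t)) = ∫ ξ, (2 / (1 + t)) * ‖(e0 : HS) ξ‖ ^ 2 ∂mu := by
    rw [integral_const_mul, ← normsq, e0_norm]; ring
  rw [h2]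
  have hae : ∀ᵐ ξ ∂mu, e0 ξ = (Ioo (0 : ℝ) 1).indicator (fun _ => (1 : ℂ)) ξ :=
    indicatorConstLp_coeFn
  refine integral_mono_of_nonneg ?_ ((sq_integrable e0).const_mul _) ?_
  · filter_upwards [ae_pos] with ξ hξ
    simp only [Pi.zero_apply]
    positivity
  · filter_upwards [ae_pos, hae] with ξ hξ h
    simp only [h]
    by_cases hx : ξ ∈ Ioo (0 : ℝ) 1
    · rw [indicator_of_mem hx]
      simp only [norm_one, one_pow, mul_one]
      rw [div_le_div_iff₀ (by linarith) (by linarith)]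
      have := hx.2
      nlinarith
    · rw [indicator_of_notMem hx]; simp

end Pool.Agent.U53.ShiftHalf
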