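import Mathlib

set_option autoImplicit false

open MeasureTheory Set Filter Topology
open scoped ENNReal InnerProductSpace

namespace Pool.Agent.U53.ShiftHalf

/-- Lebesgue measure on the half-line. -/
noncomputable def mu : Measure ℝ := volume.restrict (Ioi (0 : ℝ))

/-- The Hilbert space `L²(0,∞)`. -/
noncomputable abbrev HS := Lp ℂ 2 mu

/-- restricted shift measure preserving -/
lemma mp_sub (t : ℝ) : MeasurePreserving (fun x : ℝ => x - t)
    (volume.restrict (Ioi t)) mu := by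
  have h := (measurePreserving_sub_right (volume : Measure ℝ) t).restrict_preimage
    (s := Ioi (0 : ℝ)) measurableSet_Ioi
  have he : (fun x : ℝ => x - t) ⁻¹' (Ioi (0 : ℝ)) = Ioi t := by
    ext x; simp
  rw [he] at h
  exact h

lemma mu_restrict {t : ℝ} (ht : 0 ≤ t) : mu.restrict (Ioi t) = volume.restrict (Ioi t) := by
  unfold mu
  rw [Measure.restrict_restrict measurableSet_Ioi]
  congr 1
  ext x
  simp only [mem_inter_iff, mem_Ioi]
  constructor
  · rintro ⟨h1, _⟩; exact h1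
  · intro h; exact ⟨h, by linarith⟩

lemma ae_shift {t : ℝ} (ht : 0 ≤ t) {P : ℝ → Prop} (h : ∀ᵐ x ∂mu, P x) :
    ∀ᵐ x ∂mu, t < x → P (x - t) := by
  have h1 : ∀ᵐ x ∂(volume.restrict (Ioi t)), P (x - t) :=
    (mp_sub t).quasiMeasurePreserving.ae h
  rw [← mu_restrict ht, ae_restrict_iff' measurableSet_Ioi] at h1
  exact h1

/-- the weighted shifted function -/
noncomputable def sh (b : ℝ → ℝ) (t : ℝ) (f : ℝ → ℂ) : ℝ → ℂ :=
  fun x => if t < x then (b x : ℂ) * f (x - t) else 0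

lemma sh_eq_indicator (b : ℝ → ℝ) (t : ℝ) (f : ℝ → ℂ) :
    sh b t f = (Ioi t).indicator (fun x => (b x : ℂ) * f (x - t)) := by
  ext x
  simp only [sh, indicator, mem_Ioi]

lemma sh_aesm {b : ℝ → ℝ} (hb : Measurable b) {t : ℝ} (ht : 0 ≤ t) {f : ℝ → ℂ}
    (hf : AEStronglyMeasurable f mu) : AEStronglyMeasurable (sh b t f) mu := by
  rw [sh_eq_indicator, aestronglyMeasurable_indicator_iff measurableSet_Ioi, mu_restrict ht]
  refine AEStronglyMeasurable.mul ?_ ?_
  · exact (Complex.measurable_ofReal.comp hb).aestronglyMeasurable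
  · exact hf.comp_measurePreserving (mp_sub t)

lemma sh_eLpNorm_le {b : ℝ → ℝ} (hb1 : ∀ x, |b x| ≤ 1) {t : ℝ} (ht : 0 ≤ t)
    {f : ℝ → ℂ} (hf : AEStronglyMeasurable f mu) : eLpNorm (sh b t f) 2 mu ≤ eLpNorm f 2 mu := by
  rw [sh_eq_indicator, eLpNorm_indicator_eq_eLpNorm_restrict measurableSet_Ioi, mu_restrict ht,
    ← eLpNorm_comp_measurePreserving hf (mp_sub t)]
  refine eLpNorm_mono (fun x => ?_)
  simp only [Function.comp]
  rw [norm_mul]
  have h1 : ‖((b x : ℝ) : ℂ)‖ ≤ 1 := by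
    rw [Complex.norm_real]; exact hb1 x
  calc ‖((b x : ℝ) : ℂ)‖ * ‖f (x - t)‖ ≤ 1 * ‖f (x - t)‖ := by gcongr
    _ = _ := one_mul _

lemma sh_memLp {b : ℝ → ℝ} (hb : Measurable b) (hb1 : ∀ x, |b x| ≤ 1) {t : ℝ} (ht : 0 ≤ t)
    {f : ℝ → ℂ} (hf : MemLp f 2 mu) : MemLp (sh b t f) 2 mu :=
  ⟨sh_aesm hb ht hf.1, lt_of_le_of_lt (sh_eLpNorm_le hb1 ht hf.1) hf.2⟩

lemma sh_congr {b : ℝ → ℝ} {t : ℝ} (ht : 0 ≤ t) {f g : ℝ → ℂ} (h : f =ᵐ[mu] g) :
    sh b t f =ᵐ[mu] sh b t g := by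
  filter_upwards [ae_shift ht h] with x hx
  unfold sh
  split_ifs with h1
  · rw [hx h1]
  · rfl

/-- weighted shift operator on `L²(0,∞)` -/
noncomputable def Op (b : ℝ → ℝ) (hb : Measurable b) (hb1 : ∀ x, |b x| ≤ 1) (t : ℝ) (ht : 0 ≤ t) :
    HS →L[ℂ] HS :=
  LinearMap.mkContinuous
    { toFun := fun f => (sh_memLp hb hb1 ht (Lp.memLp f)).toLp _
      map_add' := by
        intro f g
        rw [← MemLp.toLp_add]
        rw [MemLp.toLp_eq_toLp_iff]
        refine (sh_congr ht (Lp.coeFn_add f g)).trans ?_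
        refine Filter.Eventually.of_forall (fun x => ?_)
        simp only [sh, Pi.add_apply]
        split_ifs <;> ring
      map_smul' := by
        intro c f
        simp only [RingHom.id_apply]
        rw [← MemLp.toLp_const_smul]
        rw [MemLp.toLp_eq_toLp_iff]
        refine (sh_congr ht (Lp.coeFn_smul c f)).trans ?_
        refine Filter.Eventually.of_forall (fun x => ?_)
        simp only [sh, Pi.smul_apply, smul_eq_mul]
        split_ifs <;> ring }
    1 (by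
      intro f
      simp only [LinearMap.coe_mk, AddHom.coe_mk, one_mul]
      rw [Lp.norm_toLp, Lp.norm_def]
      exact ENNReal.toReal_mono (Lp.eLpNorm_ne_top f) (sh_eLpNorm_le hb1 ht (Lp.aestronglyMeasurable f)))

lemma Op_ae (b : ℝ → ℝ) (hb : Measurable b) (hb1 : ∀ x, |b x| ≤ 1) (t : ℝ) (ht : 0 ≤ t) (f : HS) :
    Op b hb hb1 t ht f =ᵐ[mu] sh b t f := by
  unfold Op
  simp only [LinearMap.mkContinuous_apply, LinearMap.coe_mk, AddHom.coe_mk]
  exact MemLp.coeFn_toLp _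

lemma Op_norm (b : ℝ → ℝ) (hb : Measurable b) (hb1 : ∀ x, |b x| ≤ 1) (t : ℝ) (ht : 0 ≤ t) :
    ‖Op b hb hb1 t ht‖ ≤ 1 :=
  LinearMap.mkContinuous_norm_le _ zero_le_one _

/-- the weight -/
noncomputable def w (t : ℝ) (x : ℝ) : ℝ := if 0 ≤ t then Real.sqrt (1 + x - t) / Real.sqrt (1 + x) else 0

lemma w_meas (t : ℝ) : Measurable (w t) := by
  unfold w
  split_ifs
  · fun_prop
  · fun_prop

lemma w_le (t : ℝ) (x : ℝ) : |w t x| ≤ 1 := by
  unfold w
  split_ifs with h
  · rw [abs_of_nonneg (by positivity)]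
    exact div_le_one_of_le₀ (Real.sqrt_le_sqrt (by linarith)) (Real.sqrt_nonneg _)
  · simp

/-- the semigroup -/
noncomputable def T (t : ℝ) : HS →L[ℂ] HS := Op (w t) (w_meas t) (w_le t) (max t 0) (le_max_right _ _)

lemma T_ae {t : ℝ} (ht : 0 ≤ t) (f : HS) :
    T t f =ᵐ[mu] fun x => if t < x then ((Real.sqrt (1 + x - t) / Real.sqrt (1 + x) : ℝ) : ℂ) * f (x - t) else 0 := by
  refine (Op_ae _ _ _ _ _ f).trans (Filter.Eventually.of_forall (fun x => ?_))
  simp only [sh, max_eq_left ht, w, if_pos ht]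

lemma T_norm (t : ℝ) : ‖T t‖ ≤ 1 := Op_norm _ _ _ _ _

lemma ae_pos : ∀ᵐ x ∂mu, 0 < x := by
  unfold mu
  rw [ae_restrict_iff' measurableSet_Ioi]
  exact Filter.Eventually.of_forall (fun x hx => hx)

lemma T_zero : T 0 = ContinuousLinearMap.id ℂ HS := by
  ext1 f
  rw [ContinuousLinearMap.id_apply]
  refine Lp.ext ((T_ae le_rfl f).trans ?_)
  filter_upwards [ae_pos] with x hx
  rw [if_pos hx]
  have : Real.sqrt (1 + x - 0) / Real.sqrt (1 + x) = 1 := by
    rw [sub_zero]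
    exact div_self (Real.sqrt_ne_zero'.mpr (by linarith))
  rw [this]
  simp

lemma T_add {s t : ℝ} (hs : 0 ≤ s) (ht : 0 ≤ t) : T (s + t) = (T s).comp (T t) := by
  ext1 f
  rw [ContinuousLinearMap.comp_apply]
  refine Lp.ext ((T_ae (by linarith) f).trans ?_)
  have h1 := T_ae hs (T t f)
  have h2 := ae_shift hs (T_ae ht f)
  filter_upwards [h1, h2, ae_pos] with x hx1 hx2 hx
  rw [hx1]
  by_cases hsx : s < x
  · rw [if_pos hsx, hx2 hsx]
    by_cases hstx : s + t < x
    · rw [if_pos hstx, if_pos (by linarith : t < x - s)]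
      have e1 : x - (s + t) = x - s - t := by ring
      rw [e1, ← mul_assoc, ← Complex.ofReal_mul]
      congr 2
      have e2 : 1 + (x - s) - t = 1 + x - (s + t) := by ring
      have e3 : 1 + (x - s) = 1 + x - s := by ring
      rw [e2, e3]
      have h3 : Real.sqrt (1 + x - s) ≠ 0 := Real.sqrt_ne_zero'.mpr (by linarith)
      have h4 : Real.sqrt (1 + x) ≠ 0 := Real.sqrt_ne_zero'.mpr (by linarith)
      field_simp
    · rw [if_neg hstx, if_neg (by linarith : ¬ t < x - s), mul_zero]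
  · rw [if_neg hsx, if_neg (by linarith : ¬ s + t < x)]


/-! ### strong continuity -/

lemma w_close {h x : ℝ} (h0 : 0 ≤ h) (h1 : h ≤ 1) (hx : 0 < x) :
    |Real.sqrt (1 + x - h) / Real.sqrt (1 + x) - 1| ≤ h := by
  have hpos : 0 < Real.sqrt (1 + x) := Real.sqrt_pos.mpr (by linarith)
  have hle : Real.sqrt (1 + x - h) / Real.sqrt (1 + x) ≤ 1 :=
    div_le_one_of_le₀ (Real.sqrt_le_sqrt (by linarith)) (Real.sqrt_nonneg _)
  have hge : 1 - h ≤ Real.sqrt (1 + x - h) / Real.sqrt (1 + x) := by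
    rw [← Real.sqrt_div' _ (by linarith)]
    apply Real.le_sqrt_of_sq_le
    rw [le_div_iff₀ (by linarith)]
    nlinarith [mul_nonneg h0 (sub_nonneg.mpr h1), mul_nonneg (mul_nonneg h0 (sub_nonneg.mpr h1)) hx.le,
      mul_nonneg h0 hx.le]
  rw [abs_le]
  constructor <;> linarith

lemma T_tendsto_zero (F : HS) : Tendsto (fun h : ℝ => T h F) (𝓝[≥] 0) (𝓝 F) := by
  -- extension by zero
  have hf : MemLp ((Ioi (0 : ℝ)).indicator F) 2 (volume : Measure ℝ) := by
    rw [memLp_indicator_iff_restrict measurableSet_Ioi]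
    exact Lp.memLp F
  set f : Lp ℂ 2 (volume : Measure ℝ) := hf.toLp _ with hfdef
  have hfae : f =ᵐ[volume] (Ioi (0 : ℝ)).indicator F := hf.coeFn_toLp
  have hcont : Tendsto (fun h : ℝ => (DomAddAct.mk (-h)) +ᵥ f) (𝓝 0) (𝓝 f) := by
    have h1 : Continuous (fun h : ℝ => (DomAddAct.mk (-h)) +ᵥ f) := by
      have : Fact ((2 : ℝ≥0∞) ≠ ∞) := ⟨by norm_num⟩
      have h2 : Continuous (fun h : ℝ => (DomAddAct.mk (-h) : DomAddAct ℝ)) :=
        DomAddAct.continuous_mk.comp continuous_neg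
      exact h2.vadd continuous_const
    have h3 := h1.tendsto 0
    simp only [neg_zero] at h3
    have h4 : (DomAddAct.mk (0 : ℝ)) +ᵥ f = f := by
      have : (DomAddAct.mk (0 : ℝ)) = 0 := rfl
      rw [this, zero_vadd]
    rw [h4] at h3
    exact h3
  rw [tendsto_iff_norm_sub_tendsto_zero] at hcont ⊢
  have hlim : Tendsto (fun h : ℝ => ‖((DomAddAct.mk (-h)) +ᵥ f) - f‖ + h * ‖F‖) (𝓝[≥] 0) (𝓝 0) := by
    have h1 : Tendsto (fun h : ℝ => h * ‖F‖) (𝓝[≥] 0) (𝓝 0) := by
      have : Tendsto (fun h : ℝ => h * ‖F‖) (𝓝 0) (𝓝 (0 * ‖F‖)) :=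
        (continuous_id.mul continuous_const).tendsto 0
      rw [zero_mul] at this
      exact this.mono_left nhdsWithin_le_nhds
    have h2 := (hcont.mono_left (nhdsWithin_le_nhds (s := Ici (0:ℝ)))).add h1
    rw [add_zero] at h2
    exact h2
  refine squeeze_zero' (Filter.Eventually.of_forall (fun h => norm_nonneg _)) ?_ hlim
  have hev : ∀ᶠ h : ℝ in 𝓝[≥] 0, 0 ≤ h ∧ h ≤ 1 := by
    refine (eventually_mem_nhdsWithin).and ?_
    exact nhdsWithin_le_nhds (Iic_mem_nhds (by norm_num : (0:ℝ) < 1))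
  filter_upwards [hev] with h hh
  obtain ⟨h0, h1⟩ := hh
  -- pass to functions
  have hvf : (((DomAddAct.mk (-h)) +ᵥ f) - f : Lp ℂ 2 (volume : Measure ℝ)) =ᵐ[volume]
      fun x => (Ioi (0 : ℝ)).indicator F (x - h) - (Ioi (0 : ℝ)).indicator F x := by
    have e1 := DomAddAct.vadd_Lp_ae_eq (DomAddAct.mk (-h)) f
    have e2 : ∀ᵐ x ∂(volume : Measure ℝ), f (x - h) = (Ioi (0 : ℝ)).indicator F (x - h) :=
      (measurePreserving_sub_right (volume : Measure ℝ) h).quasiMeasurePreserving.ae hfae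
    filter_upwards [e1, e2, hfae, Lp.coeFn_sub ((DomAddAct.mk (-h)) +ᵥ f) f] with x a1 a2 a3 a4
    rw [a4, Pi.sub_apply, a1, a3]
    have : (DomAddAct.mk.symm (DomAddAct.mk (-h)) +ᵥ x : ℝ) = x - h := by
      rw [Equiv.symm_apply_apply, vadd_eq_add]; ring
    rw [this, a2]
  have hA : AEStronglyMeasurable (fun x => (Ioi (0 : ℝ)).indicator F (x - h) - (Ioi (0 : ℝ)).indicator F x)
      (volume : Measure ℝ) := by
    exact ((Lp.aestronglyMeasurable _).congr hvf)
  -- norm estimate in eLpNorm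
  have hmono : (mu : Measure ℝ) ≤ volume := Measure.restrict_le_self
  have key : eLpNorm (T h F - F : HS) 2 mu ≤
      eLpNorm (((DomAddAct.mk (-h)) +ᵥ f) - f : Lp ℂ 2 (volume : Measure ℝ)) 2 volume
        + ENNReal.ofReal h * eLpNorm F 2 mu := by
    have hB : eLpNorm (T h F - F : HS) 2 mu ≤
        eLpNorm ((fun x => ‖(Ioi (0 : ℝ)).indicator F (x - h) - (Ioi (0 : ℝ)).indicator F x‖)
          + (fun x => h * ‖F x‖)) 2 mu := by
      refine eLpNorm_mono_ae ?_
      filter_upwards [T_ae h0 F, Lp.coeFn_sub (T h F) F, ae_pos] with x a1 a2 hx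
      rw [a2, Pi.sub_apply, a1]
      have hFx : (Ioi (0 : ℝ)).indicator (F : ℝ → ℂ) x = F x := indicator_of_mem (by exact hx) _
      set W : ℝ := Real.sqrt (1 + x - h) / Real.sqrt (1 + x) with hW
      have hW1 : |W - 1| ≤ h := w_close h0 h1 hx
      have hW2 : |W| ≤ 1 := by
        rw [hW, abs_of_nonneg (by positivity)]
        exact div_le_one_of_le₀ (Real.sqrt_le_sqrt (by linarith)) (Real.sqrt_nonneg _)
      have e : (if h < x then (W : ℂ) * F (x - h) else 0) = (W : ℂ) * (Ioi (0 : ℝ)).indicator F (x - h) := by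
        split_ifs with hhx
        · rw [indicator_of_mem (show x - h ∈ Ioi (0:ℝ) by simpa using hhx)]
        · rw [indicator_of_notMem (show x - h ∉ Ioi (0:ℝ) by simpa using hhx), mul_zero]
      rw [e]
      have e2 : (W : ℂ) * (Ioi (0 : ℝ)).indicator F (x - h) - F x =
          (W : ℂ) * ((Ioi (0 : ℝ)).indicator F (x - h) - (Ioi (0 : ℝ)).indicator F x)
            + ((W - 1 : ℝ) : ℂ) * F x := by
        rw [hFx]; push_cast; ring
      rw [e2]
      have hn : ‖(fun x => ‖(Ioi (0 : ℝ)).indicator F (x - h) - (Ioi (0 : ℝ)).indicator F x‖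
          + h * ‖F x‖) x‖ = ‖(Ioi (0 : ℝ)).indicator F (x - h) - (Ioi (0 : ℝ)).indicator F x‖
          + h * ‖F x‖ := by
        rw [Real.norm_of_nonneg]
        positivity
      refine le_trans ?_ (le_of_eq hn.symm)
      refine (norm_add_le _ _).trans ?_
      rw [norm_mul, norm_mul, Complex.norm_real, Complex.norm_real, Real.norm_eq_abs, Real.norm_eq_abs]
      refine add_le_add ?_ ?_
      · calc |W| * ‖(Ioi (0 : ℝ)).indicator F (x - h) - (Ioi (0 : ℝ)).indicator F x‖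
            ≤ 1 * ‖(Ioi (0 : ℝ)).indicator F (x - h) - (Ioi (0 : ℝ)).indicator F x‖ := by gcongr
          _ = _ := one_mul _
      · gcongr
    refine hB.trans ?_
    refine (eLpNorm_add_le ?_ ?_ (by norm_num)).trans ?_
    · exact (hA.mono_measure hmono).norm
    · exact ((Lp.aestronglyMeasurable F).norm.const_mul h)
    · refine add_le_add ?_ ?_
      · rw [eLpNorm_norm, eLpNorm_congr_ae hvf]
        exact eLpNorm_mono_measure _ hmono
      · have : (fun x => h * ‖F x‖) = h • (fun x => ‖F x‖) := by ext x; simp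
        rw [this, eLpNorm_const_smul, eLpNorm_norm]
        gcongr
        rw [Real.enorm_eq_ofReal h0]
  rw [Lp.norm_def, Lp.norm_def, Lp.norm_def]
  have hfin1 : eLpNorm (((DomAddAct.mk (-h)) +ᵥ f) - f : Lp ℂ 2 (volume : Measure ℝ)) 2 volume ≠ ∞ :=
    Lp.eLpNorm_ne_top _
  have hfin2 : eLpNorm F 2 mu ≠ ∞ := Lp.eLpNorm_ne_top _
  have := ENNReal.toReal_mono (ENNReal.add_ne_top.mpr ⟨hfin1, ENNReal.mul_ne_top ENNReal.ofReal_ne_top hfin2⟩) key
  refine this.trans ?_
  rw [ENNReal.toReal_add hfin1 (ENNReal.mul_ne_top ENNReal.ofReal_ne_top hfin2), ENNReal.toReal_mul,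
    ENNReal.toReal_ofReal h0]

lemma T_dist {s t : ℝ} (hs : 0 ≤ s) (ht : 0 ≤ t) (x : HS) :
    ‖T t x - T s x‖ ≤ ‖T |t - s| x - x‖ := by
  rcases le_total s t with h | h
  · rw [abs_of_nonneg (by linarith)]
    have e : T t x = T s (T (t - s) x) := by
      rw [← ContinuousLinearMap.comp_apply, ← T_add hs (by linarith)]
      congr 2; ring
    rw [e, ← map_sub]
    exact ((T s).le_of_opNorm_le (T_norm s) _).trans (le_of_eq (one_mul _))
  · rw [abs_of_nonpos (by linarith), neg_sub]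
    have e : T s x = T t (T (s - t) x) := by
      rw [← ContinuousLinearMap.comp_apply, ← T_add ht (by linarith)]
      congr 2; ring
    rw [e, ← map_sub, ← norm_neg, ← map_neg, neg_sub]
    exact ((T t).le_of_opNorm_le (T_norm t) _).trans (le_of_eq (one_mul _))

lemma T_contOn (x : HS) : ContinuousOn (fun t : ℝ => T t x) (Ici 0) := by
  intro s hs
  rw [mem_Ici] at hs
  unfold ContinuousWithinAt
  rw [tendsto_iff_norm_sub_tendsto_zero]
  have h1 : Tendsto (fun t : ℝ => |t - s|) (𝓝[Ici 0] s) (𝓝[≥] 0) := by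
    rw [tendsto_nhdsWithin_iff]
    refine ⟨?_, Filter.Eventually.of_forall (fun t => mem_Ici.mpr (abs_nonneg _))⟩
    have : Tendsto (fun t : ℝ => |t - s|) (𝓝 s) (𝓝 |s - s|) :=
      ((continuous_id.sub continuous_const).abs).tendsto s
    rw [sub_self, abs_zero] at this
    exact this.mono_left nhdsWithin_le_nhds
  have h2 := (tendsto_iff_norm_sub_tendsto_zero.mp (T_tendsto_zero x)).comp h1
  refine squeeze_zero' (Filter.Eventually.of_forall (fun h => norm_nonneg _)) ?_ h2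
  filter_upwards [self_mem_nhdsWithin] with t ht
  exact T_dist hs ht x

end Pool.Agent.U53.ShiftHalf
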